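import Pool.Agent.H46.AVR.BAS

/-!
# Board `avr`, module CHB: base change of a pair of Gram matrices
-/

set_option autoImplicit false

namespace Pool.AVR

open Polynomial Matrix

theorem chb_thm : CHBStmt := by
  intro K _ a b c x y G B g hR
  obtain ⟨e, h1, h2⟩ := hR
  refine ⟨fun j => ∑ k, g k j • e k, ?_, ?_⟩
  · intro i j
    have h3 := bas_bilin (basT a b c) (hh a b x y) e G (fun i j => by
      rw [basT_apply, ← h1 i j, mul_comm]) g i j
    rw [basT_apply] at h3
    rw [← h3, mul_comm (hh a b x y)]
  · intro i j
    have h3 := bas_bilin (basT a b c) (X * hh a b x y) e B (fun i j => by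
      rw [basT_apply, ← h2 i j]
      ring_nf) g i j
    rw [basT_apply] at h3
    rw [← h3, mul_assoc X, mul_comm (hh a b x y)]

end Pool.AVR
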